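import Pool.Agent.H72.Lib.S3997.NC.Jet

/-!
# Solutions of the heat equation given by power series in the space variable
-/

set_option autoImplicit false

open Set Filter Topology

namespace Pool.Agent.Q61.NC

/-- Jets for which the power series below converge for `|y| < Y`. -/
def Good (Y : ℝ) (Z : ℕ → ℝ → ℝ) : Prop :=
  IsJet Z ∧ ∀ t₁ : ℝ, 0 < t₁ → ∃ C r : ℝ, 0 ≤ C ∧ 0 < r ∧ r * Y ^ 2 < 1 ∧
    ∀ (i : ℕ) (t : ℝ), t₁ ≤ t → |Z i t| ≤ C * r ^ i * ((2 * i).factorial : ℝ)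

/-- Shift of a jet (the jet of the derivative). -/
def sh (Z : ℕ → ℝ → ℝ) : ℕ → ℝ → ℝ := fun i => Z (i + 1)

/-- The even solution `∑ Z i t y^(2 i) / (2 i)!`. -/
noncomputable def FE (Z : ℕ → ℝ → ℝ) (t y : ℝ) : ℝ :=
  ∑' i : ℕ, Z i t * (y ^ (2 * i) / ((2 * i).factorial : ℝ))

/-- The odd solution `∑ Z i t y^(2 i + 1) / (2 i + 1)!`. -/
noncomputable def FO (Z : ℕ → ℝ → ℝ) (t y : ℝ) : ℝ :=
  ∑' i : ℕ, Z i t * (y ^ (2 * i + 1) / ((2 * i + 1).factorial : ℝ))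

theorem summable_sq {ρ : ℝ} (h0 : 0 ≤ ρ) (h1 : ρ < 1) :
    Summable fun i : ℕ => ((i : ℝ) + 1) ^ 2 * ρ ^ i := by
  have hn : ‖ρ‖ < 1 := by rwa [Real.norm_of_nonneg h0]
  have a2 := summable_pow_mul_geometric_of_norm_lt_one (R := ℝ) 2 hn
  have a1 := (summable_pow_mul_geometric_of_norm_lt_one (R := ℝ) 1 hn).mul_left 2
  have a0 := summable_pow_mul_geometric_of_norm_lt_one (R := ℝ) 0 hn
  refine ((a2.add a1).add a0).congr fun i => ?_
  ring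

theorem Good.shift {Y : ℝ} (hY : 0 < Y) {Z : ℕ → ℝ → ℝ} (h : Good Y Z) : Good Y (sh Z) := by
  refine ⟨fun i t ht => h.1 (i + 1) t ht, fun t₁ ht₁ => ?_⟩
  obtain ⟨C, r, hC, hr, hrY, hb⟩ := h.2 t₁ ht₁
  have hY2 : 0 < Y ^ 2 := by positivity
  set r' : ℝ := (r + 1 / Y ^ 2) / 2 with hr'
  have h1 : r < 1 / Y ^ 2 := by rwa [lt_div_iff₀ hY2]
  have h2 : r < r' := by rw [hr']; linarith
  have h3 : r' < 1 / Y ^ 2 := by rw [hr']; linarith
  have h3' : r' * Y ^ 2 < 1 := by rwa [lt_div_iff₀ hY2] at h3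
  have hr'0 : 0 < r' := hr.trans h2
  have hσ0 : 0 ≤ r / r' := by positivity
  have hσ1 : r / r' < 1 := by rwa [div_lt_one hr'0]
  have hs := summable_sq hσ0 hσ1
  set M : ℝ := ∑' i : ℕ, ((i : ℝ) + 1) ^ 2 * (r / r') ^ i with hM
  have hM0 : 0 ≤ M := tsum_nonneg fun i => by positivity
  have hle : ∀ i : ℕ, ((i : ℝ) + 1) ^ 2 * (r / r') ^ i ≤ M := fun i =>
    hs.le_tsum i fun j _ => by positivity
  refine ⟨C * r * 4 * M, r', by positivity, hr'0, h3', fun i t ht => ?_⟩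
  have h5 : ((2 * (i + 1)).factorial : ℝ) ≤ 4 * ((i : ℝ) + 1) ^ 2 * ((2 * i).factorial : ℝ) := by
    have e : 2 * (i + 1) = (2 * i + 1) + 1 := by ring
    rw [e, Nat.factorial_succ, Nat.factorial_succ]
    push_cast
    have hf : (0 : ℝ) < ((2 * i).factorial : ℝ) := by positivity
    have hi : (0 : ℝ) ≤ (i : ℝ) := Nat.cast_nonneg i
    have : (2 * (i : ℝ) + 1 + 1) * (2 * i + 1) ≤ 4 * ((i : ℝ) + 1) ^ 2 := by nlinarith
    calc (2 * (i : ℝ) + 1 + 1) * ((2 * i + 1) * ((2 * i).factorial : ℝ))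
        = ((2 * (i : ℝ) + 1 + 1) * (2 * i + 1)) * ((2 * i).factorial : ℝ) := by ring
      _ ≤ _ := by gcongr
  calc |sh Z i t| = |Z (i + 1) t| := rfl
    _ ≤ C * r ^ (i + 1) * ((2 * (i + 1)).factorial : ℝ) := hb (i + 1) t ht
    _ ≤ C * r ^ (i + 1) * (4 * ((i : ℝ) + 1) ^ 2 * ((2 * i).factorial : ℝ)) := by gcongr
    _ = C * r * 4 * (((i : ℝ) + 1) ^ 2 * (r / r') ^ i) * r' ^ i * ((2 * i).factorial : ℝ) := by
        rw [div_pow, pow_succ]
        field_simp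
    _ ≤ C * r * 4 * M * r' ^ i * ((2 * i).factorial : ℝ) := by
        have := hle i
        gcongr

/-- The domain of the solutions. -/
def Dom (Y : ℝ) : Set (ℝ × ℝ) := {q | 0 < q.1 ∧ |q.2| < Y}

theorem isOpen_Dom (Y : ℝ) : IsOpen (Dom Y) :=
  (isOpen_lt continuous_const continuous_fst).inter
    (isOpen_lt continuous_snd.abs continuous_const)

theorem factor_even (i : ℕ) (y : ℝ) :
    HasDerivAt (fun y : ℝ => y ^ (2 * (i + 1)) / ((2 * (i + 1)).factorial : ℝ))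
      (y ^ (2 * i + 1) / ((2 * i + 1).factorial : ℝ)) y := by
  have h := (hasDerivAt_pow (2 * (i + 1)) y).div_const ((2 * (i + 1)).factorial : ℝ)
  have e1 : ((2 * (i + 1) : ℕ) : ℝ) * y ^ (2 * (i + 1) - 1) / ((2 * (i + 1)).factorial : ℝ) =
      y ^ (2 * i + 1) / ((2 * i + 1).factorial : ℝ) := by
    have e : 2 * (i + 1) = (2 * i + 1) + 1 := by ring
    rw [e, Nat.factorial_succ, Nat.add_sub_cancel]
    push_cast
    have h1 : ((2 * i + 1).factorial : ℝ) ≠ 0 := by positivity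
    have h2 : (2 * (i : ℝ) + 1 + 1) ≠ 0 := by positivity
    field_simp
  rw [e1] at h
  exact h

theorem factor_odd (i : ℕ) (y : ℝ) :
    HasDerivAt (fun y : ℝ => y ^ (2 * i + 1) / ((2 * i + 1).factorial : ℝ))
      (y ^ (2 * i) / ((2 * i).factorial : ℝ)) y := by
  have h := (hasDerivAt_pow (2 * i + 1) y).div_const ((2 * i + 1).factorial : ℝ)
  have e1 : ((2 * i + 1 : ℕ) : ℝ) * y ^ (2 * i + 1 - 1) / ((2 * i + 1).factorial : ℝ) =
      y ^ (2 * i) / ((2 * i).factorial : ℝ) := by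
    rw [Nat.factorial_succ, Nat.add_sub_cancel]
    push_cast
    have h1 : ((2 * i).factorial : ℝ) ≠ 0 := by positivity
    have h2 : (2 * (i : ℝ) + 1) ≠ 0 := by positivity
    field_simp
  rw [e1] at h
  exact h

/-- The derivative of the `i`-th even monomial. -/
noncomputable def dE : ℕ → ℝ → ℝ
  | 0 => fun _ => 0
  | i + 1 => fun y => y ^ (2 * i + 1) / ((2 * i + 1).factorial : ℝ)

theorem hasDerivAt_dE (i : ℕ) (y : ℝ) :
    HasDerivAt (fun y : ℝ => y ^ (2 * i) / ((2 * i).factorial : ℝ)) (dE i y) y := by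
  rcases i with _ | i
  · simpa [dE] using hasDerivAt_const y (1 : ℝ)
  · exact factor_even i y

theorem norm_comb_le (a b : ℝ) :
    ‖a • ContinuousLinearMap.fst ℝ ℝ ℝ + b • ContinuousLinearMap.snd ℝ ℝ ℝ‖ ≤ |a| + |b| := by
  refine (norm_add_le _ _).trans ?_
  rw [norm_smul, norm_smul, Real.norm_eq_abs, Real.norm_eq_abs]
  have h1 := ContinuousLinearMap.norm_fst_le ℝ ℝ ℝ
  have h2 := ContinuousLinearMap.norm_snd_le ℝ ℝ ℝ
  nlinarith [abs_nonneg a, abs_nonneg b]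

section

variable {Y : ℝ} (hY : 0 < Y)

include hY

/-- Bounds for the terms. -/
theorem term_bounds {C r : ℝ} (hC : 0 ≤ C) (hr : 0 < r) {z y : ℝ} (i : ℕ)
    (hz : |z| ≤ C * r ^ i * ((2 * i).factorial : ℝ)) (hy : |y| < Y) :
    |z * (y ^ (2 * i) / ((2 * i).factorial : ℝ))| ≤ C * (((i : ℝ) + 1) ^ 2 * (r * Y ^ 2) ^ i) ∧
    |z * (y ^ (2 * i + 1) / ((2 * i + 1).factorial : ℝ))| ≤
      C * Y * (((i : ℝ) + 1) ^ 2 * (r * Y ^ 2) ^ i) ∧
    |z * dE i y| ≤ 2 * C / Y * (((i : ℝ) + 1) ^ 2 * (r * Y ^ 2) ^ i) := by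
  have hi : (0 : ℝ) ≤ (i : ℝ) := Nat.cast_nonneg i
  have h1i : (1 : ℝ) ≤ ((i : ℝ) + 1) ^ 2 := by nlinarith
  have hf : (0 : ℝ) < ((2 * i).factorial : ℝ) := by positivity
  have hy0 : 0 ≤ |y| := abs_nonneg y
  have hy2 : |y| ^ (2 * i) ≤ Y ^ (2 * i) := pow_le_pow_left₀ hy0 hy.le _
  have e0 : r ^ i * Y ^ (2 * i) = (r * Y ^ 2) ^ i := by rw [mul_pow, ← pow_mul]
  have hρ : 0 ≤ (r * Y ^ 2) ^ i := by positivity
  refine ⟨?_, ?_, ?_⟩
  · rw [abs_mul, abs_div, abs_pow, abs_of_pos hf]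
    calc |z| * (|y| ^ (2 * i) / ((2 * i).factorial : ℝ))
        ≤ (C * r ^ i * ((2 * i).factorial : ℝ)) * (Y ^ (2 * i) / ((2 * i).factorial : ℝ)) := by
          gcongr
      _ = C * (r ^ i * Y ^ (2 * i)) := by field_simp
      _ = C * (1 * (r * Y ^ 2) ^ i) := by rw [e0, one_mul]
      _ ≤ _ := by gcongr
  · have hf1 : (0 : ℝ) < ((2 * i + 1).factorial : ℝ) := by positivity
    have hff : ((2 * i).factorial : ℝ) ≤ ((2 * i + 1).factorial : ℝ) := by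
      exact_mod_cast Nat.factorial_le (by omega)
    rw [abs_mul, abs_div, abs_pow, abs_of_pos hf1]
    calc |z| * (|y| ^ (2 * i + 1) / ((2 * i + 1).factorial : ℝ))
        ≤ (C * r ^ i * ((2 * i).factorial : ℝ)) * (Y ^ (2 * i + 1) / ((2 * i).factorial : ℝ)) := by
          gcongr
      _ = C * Y * (r ^ i * Y ^ (2 * i)) := by field_simp; ring
      _ = C * Y * (1 * (r * Y ^ 2) ^ i) := by rw [e0, one_mul]
      _ ≤ _ := by gcongr
  · rcases i with _ | i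
    · simp only [dE, mul_zero, abs_zero]
      positivity
    · have hf1 : (0 : ℝ) < ((2 * i + 1).factorial : ℝ) := by positivity
      simp only [dE]
      rw [abs_mul, abs_div, abs_pow, abs_of_pos hf1]
      have e1 : ((2 * (i + 1)).factorial : ℝ) = (2 * (i : ℝ) + 2) * ((2 * i + 1).factorial : ℝ) := by
        have e : 2 * (i + 1) = (2 * i + 1) + 1 := by ring
        rw [e, Nat.factorial_succ]
        push_cast
        ring
      have h3 : (2 * (i : ℝ) + 2) ≤ 2 * (((i + 1 : ℕ) : ℝ) + 1) ^ 2 := by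
        push_cast
        have : (0 : ℝ) ≤ (i : ℝ) := Nat.cast_nonneg i
        nlinarith
      calc |z| * (|y| ^ (2 * i + 1) / ((2 * i + 1).factorial : ℝ))
          ≤ (C * r ^ (i + 1) * ((2 * (i + 1)).factorial : ℝ)) *
              (Y ^ (2 * i + 1) / ((2 * i + 1).factorial : ℝ)) := by
            gcongr
        _ = C / Y * (2 * (i : ℝ) + 2) * (r ^ (i + 1) * Y ^ (2 * (i + 1))) := by
            rw [e1]
            field_simp
            ring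
        _ = C / Y * (2 * (i : ℝ) + 2) * (r * Y ^ 2) ^ (i + 1) := by rw [e0]
        _ ≤ C / Y * (2 * (((i + 1 : ℕ) : ℝ) + 1) ^ 2) * (r * Y ^ 2) ^ (i + 1) := by gcongr
        _ = _ := by ring

theorem summable_FE {Z : ℕ → ℝ → ℝ} (h : Good Y Z) {t y : ℝ} (ht : 0 < t) (hy : |y| < Y) :
    Summable fun i : ℕ => Z i t * (y ^ (2 * i) / ((2 * i).factorial : ℝ)) := by
  obtain ⟨C, r, hC, hr, hrY, hb⟩ := h.2 t ht
  refine Summable.of_norm_bounded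
    ((summable_sq (by positivity : 0 ≤ r * Y ^ 2) hrY).mul_left C) fun i => ?_
  exact (term_bounds hY hC hr i (hb i t le_rfl) hy).1

theorem summable_FO {Z : ℕ → ℝ → ℝ} (h : Good Y Z) {t y : ℝ} (ht : 0 < t) (hy : |y| < Y) :
    Summable fun i : ℕ => Z i t * (y ^ (2 * i + 1) / ((2 * i + 1).factorial : ℝ)) := by
  obtain ⟨C, r, hC, hr, hrY, hb⟩ := h.2 t ht
  refine Summable.of_norm_bounded
    ((summable_sq (by positivity : 0 ≤ r * Y ^ 2) hrY).mul_left (C * Y)) fun i => ?_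
  exact (term_bounds hY hC hr i (hb i t le_rfl) hy).2.1

theorem summable_FdE {Z : ℕ → ℝ → ℝ} (h : Good Y Z) {t y : ℝ} (ht : 0 < t) (hy : |y| < Y) :
    Summable fun i : ℕ => Z i t * dE i y := by
  obtain ⟨C, r, hC, hr, hrY, hb⟩ := h.2 t ht
  refine Summable.of_norm_bounded
    ((summable_sq (by positivity : 0 ≤ r * Y ^ 2) hrY).mul_left (2 * C / Y)) fun i => ?_
  exact (term_bounds hY hC hr i (hb i t le_rfl) hy).2.2

theorem tsum_dE {Z : ℕ → ℝ → ℝ} (h : Good Y Z) {t y : ℝ} (ht : 0 < t) (hy : |y| < Y) :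
    ∑' i : ℕ, Z i t * dE i y = FO (sh Z) t y := by
  rw [(summable_FdE hY h ht hy).tsum_eq_zero_add]
  simp [dE, FO, sh]

omit hY in
/-- The piece of the domain on which the series are differentiated. -/
theorem piece (t₁ : ℝ) :
    IsOpen {q : ℝ × ℝ | t₁ < q.1 ∧ |q.2| < Y} ∧ IsPreconnected {q : ℝ × ℝ | t₁ < q.1 ∧ |q.2| < Y} := by
  constructor
  · exact (isOpen_lt continuous_const continuous_fst).inter
      (isOpen_lt continuous_snd.abs continuous_const)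
  · have : {q : ℝ × ℝ | t₁ < q.1 ∧ |q.2| < Y} = Ioi t₁ ×ˢ Ioo (-Y) Y := by
      ext q
      simp [abs_lt]
    rw [this]
    exact (convex_Ioi t₁).isPreconnected.prod (convex_Ioo _ _).isPreconnected

theorem hasFDerivAt_FE {Z : ℕ → ℝ → ℝ} (h : Good Y Z) {t y : ℝ} (ht : 0 < t) (hy : |y| < Y) :
    HasFDerivAt (fun q : ℝ × ℝ => FE Z q.1 q.2)
      (FE (sh Z) t y • ContinuousLinearMap.fst ℝ ℝ ℝ +
        FO (sh Z) t y • ContinuousLinearMap.snd ℝ ℝ ℝ) (t, y) := by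
  have ht₁ : 0 < t / 2 := by linarith
  obtain ⟨C, r, hC, hr, hrY, hb⟩ := h.2 (t / 2) ht₁
  obtain ⟨C', r', hC', hr', hrY', hb'⟩ := (h.shift hY).2 (t / 2) ht₁
  obtain ⟨ho, hc⟩ := piece (Y := Y) (t / 2)
  have hmem : (t, y) ∈ {q : ℝ × ℝ | t / 2 < q.1 ∧ |q.2| < Y} := ⟨by show t / 2 < t; linarith, hy⟩
  have key := hasFDerivAt_tsum_of_isPreconnected
    (f := fun (i : ℕ) (q : ℝ × ℝ) => Z i q.1 * (q.2 ^ (2 * i) / ((2 * i).factorial : ℝ)))
    (f' := fun (i : ℕ) (q : ℝ × ℝ) =>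
      (Z (i + 1) q.1 * (q.2 ^ (2 * i) / ((2 * i).factorial : ℝ))) •
        ContinuousLinearMap.fst ℝ ℝ ℝ + (Z i q.1 * dE i q.2) • ContinuousLinearMap.snd ℝ ℝ ℝ)
    (u := fun i : ℕ => C' * (((i : ℝ) + 1) ^ 2 * (r' * Y ^ 2) ^ i) +
      2 * C / Y * (((i : ℝ) + 1) ^ 2 * (r * Y ^ 2) ^ i))
    (x₀ := (t, y)) (x := (t, y))
    (((summable_sq (by positivity : 0 ≤ r' * Y ^ 2) hrY').mul_left C').add
      ((summable_sq (by positivity : 0 ≤ r * Y ^ 2) hrY).mul_left (2 * C / Y)))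
    ho hc ?_ ?_ hmem (summable_FE hY h ht hy) hmem
  · have e1 : (∑' i : ℕ, ((Z (i + 1) t * (y ^ (2 * i) / ((2 * i).factorial : ℝ))) •
        ContinuousLinearMap.fst ℝ ℝ ℝ + (Z i t * dE i y) • ContinuousLinearMap.snd ℝ ℝ ℝ)) =
        FE (sh Z) t y • ContinuousLinearMap.fst ℝ ℝ ℝ +
        FO (sh Z) t y • ContinuousLinearMap.snd ℝ ℝ ℝ := by
      have s1 := summable_FE hY (h.shift hY) ht hy
      have s2 := summable_FdE hY h ht hy
      have s1' := s1.smul_const (ContinuousLinearMap.fst ℝ ℝ ℝ)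
      have s2' := s2.smul_const (ContinuousLinearMap.snd ℝ ℝ ℝ)
      have e2 := s1'.tsum_add s2'
      rw [s1.tsum_smul_const, s2.tsum_smul_const, tsum_dE hY h ht hy] at e2
      exact e2
    rw [e1] at key
    exact key
  · rintro i ⟨s, v⟩ ⟨hs, hv⟩
    have hs0 : 0 < s := ht₁.trans hs
    have h1 : HasFDerivAt (fun q : ℝ × ℝ => Z i q.1)
        (Z (i + 1) s • ContinuousLinearMap.fst ℝ ℝ ℝ) (s, v) :=
      (h.1 i s hs0).comp_hasFDerivAt (s, v) (hasFDerivAt_fst (p := (s, v)))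
    have h2 : HasFDerivAt (fun q : ℝ × ℝ => q.2 ^ (2 * i) / ((2 * i).factorial : ℝ))
        (dE i v • ContinuousLinearMap.snd ℝ ℝ ℝ) (s, v) := by
      have h0 : HasDerivAt (fun y : ℝ => y ^ (2 * i) / ((2 * i).factorial : ℝ)) (dE i v)
        (Prod.snd ((s, v) : ℝ × ℝ)) := hasDerivAt_dE i v
      exact h0.comp_hasFDerivAt ((s, v) : ℝ × ℝ)
        (hasFDerivAt_snd (𝕜 := ℝ) (E := ℝ) (F := ℝ) (p := (s, v)))
    have h3 : HasFDerivAt (fun q : ℝ × ℝ => Z i q.1 * (q.2 ^ (2 * i) / ((2 * i).factorial : ℝ)))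
        (Z i s • (dE i v • ContinuousLinearMap.snd ℝ ℝ ℝ) +
          (v ^ (2 * i) / ((2 * i).factorial : ℝ)) •
            (Z (i + 1) s • ContinuousLinearMap.fst ℝ ℝ ℝ)) (s, v) := h1.mul h2
    rw [smul_smul, smul_smul, add_comm, mul_comm (v ^ (2 * i) / ((2 * i).factorial : ℝ))] at h3
    exact h3
  · rintro i ⟨s, v⟩ ⟨hs, hv⟩
    refine (norm_comb_le _ _).trans (add_le_add ?_ ?_)
    · exact (term_bounds hY hC' hr' i (hb' i s hs.le) hv).1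
    · exact (term_bounds hY hC hr i (hb i s hs.le) hv).2.2

theorem hasFDerivAt_FO {Z : ℕ → ℝ → ℝ} (h : Good Y Z) {t y : ℝ} (ht : 0 < t) (hy : |y| < Y) :
    HasFDerivAt (fun q : ℝ × ℝ => FO Z q.1 q.2)
      (FO (sh Z) t y • ContinuousLinearMap.fst ℝ ℝ ℝ +
        FE Z t y • ContinuousLinearMap.snd ℝ ℝ ℝ) (t, y) := by
  have ht₁ : 0 < t / 2 := by linarith
  obtain ⟨C, r, hC, hr, hrY, hb⟩ := h.2 (t / 2) ht₁
  obtain ⟨C', r', hC', hr', hrY', hb'⟩ := (h.shift hY).2 (t / 2) ht₁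
  obtain ⟨ho, hc⟩ := piece (Y := Y) (t / 2)
  have hmem : (t, y) ∈ {q : ℝ × ℝ | t / 2 < q.1 ∧ |q.2| < Y} := ⟨by show t / 2 < t; linarith, hy⟩
  have key := hasFDerivAt_tsum_of_isPreconnected
    (f := fun (i : ℕ) (q : ℝ × ℝ) => Z i q.1 * (q.2 ^ (2 * i + 1) / ((2 * i + 1).factorial : ℝ)))
    (f' := fun (i : ℕ) (q : ℝ × ℝ) =>
      (Z (i + 1) q.1 * (q.2 ^ (2 * i + 1) / ((2 * i + 1).factorial : ℝ))) •
        ContinuousLinearMap.fst ℝ ℝ ℝ +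
      (Z i q.1 * (q.2 ^ (2 * i) / ((2 * i).factorial : ℝ))) • ContinuousLinearMap.snd ℝ ℝ ℝ)
    (u := fun i : ℕ => C' * Y * (((i : ℝ) + 1) ^ 2 * (r' * Y ^ 2) ^ i) +
      C * (((i : ℝ) + 1) ^ 2 * (r * Y ^ 2) ^ i))
    (x₀ := (t, y)) (x := (t, y))
    (((summable_sq (by positivity : 0 ≤ r' * Y ^ 2) hrY').mul_left (C' * Y)).add
      ((summable_sq (by positivity : 0 ≤ r * Y ^ 2) hrY).mul_left C))
    ho hc ?_ ?_ hmem (summable_FO hY h ht hy) hmem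
  · have e1 : (∑' i : ℕ, ((Z (i + 1) t * (y ^ (2 * i + 1) / ((2 * i + 1).factorial : ℝ))) •
        ContinuousLinearMap.fst ℝ ℝ ℝ +
        (Z i t * (y ^ (2 * i) / ((2 * i).factorial : ℝ))) • ContinuousLinearMap.snd ℝ ℝ ℝ)) =
        FO (sh Z) t y • ContinuousLinearMap.fst ℝ ℝ ℝ +
        FE Z t y • ContinuousLinearMap.snd ℝ ℝ ℝ := by
      have s1 := summable_FO hY (h.shift hY) ht hy
      have s2 := summable_FE hY h ht hy
      have s1' := s1.smul_const (ContinuousLinearMap.fst ℝ ℝ ℝ)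
      have s2' := s2.smul_const (ContinuousLinearMap.snd ℝ ℝ ℝ)
      have e2 := s1'.tsum_add s2'
      rw [s1.tsum_smul_const, s2.tsum_smul_const] at e2
      exact e2
    rw [e1] at key
    exact key
  · rintro i ⟨s, v⟩ ⟨hs, hv⟩
    have hs0 : 0 < s := ht₁.trans hs
    have h1 : HasFDerivAt (fun q : ℝ × ℝ => Z i q.1)
        (Z (i + 1) s • ContinuousLinearMap.fst ℝ ℝ ℝ) (s, v) :=
      (h.1 i s hs0).comp_hasFDerivAt (s, v) (hasFDerivAt_fst (p := (s, v)))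
    have h2 : HasFDerivAt (fun q : ℝ × ℝ => q.2 ^ (2 * i + 1) / ((2 * i + 1).factorial : ℝ))
        ((v ^ (2 * i) / ((2 * i).factorial : ℝ)) • ContinuousLinearMap.snd ℝ ℝ ℝ) (s, v) := by
      have h0 : HasDerivAt (fun y : ℝ => y ^ (2 * i + 1) / ((2 * i + 1).factorial : ℝ))
        (v ^ (2 * i) / ((2 * i).factorial : ℝ)) (Prod.snd ((s, v) : ℝ × ℝ)) := factor_odd i v
      exact h0.comp_hasFDerivAt ((s, v) : ℝ × ℝ)
        (hasFDerivAt_snd (𝕜 := ℝ) (E := ℝ) (F := ℝ) (p := (s, v)))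
    have h3 : HasFDerivAt
        (fun q : ℝ × ℝ => Z i q.1 * (q.2 ^ (2 * i + 1) / ((2 * i + 1).factorial : ℝ)))
        (Z i s • ((v ^ (2 * i) / ((2 * i).factorial : ℝ)) • ContinuousLinearMap.snd ℝ ℝ ℝ) +
          (v ^ (2 * i + 1) / ((2 * i + 1).factorial : ℝ)) •
            (Z (i + 1) s • ContinuousLinearMap.fst ℝ ℝ ℝ)) (s, v) := h1.mul h2
    rw [smul_smul, smul_smul, mul_comm (v ^ (2 * i + 1) / ((2 * i + 1).factorial : ℝ)),
      add_comm (_ • ContinuousLinearMap.snd ℝ ℝ ℝ)] at h3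
    exact h3
  · rintro i ⟨s, v⟩ ⟨hs, hv⟩
    refine (norm_comb_le _ _).trans (add_le_add ?_ ?_)
    · exact (term_bounds hY hC' hr' i (hb' i s hs.le) hv).2.1
    · exact (term_bounds hY hC hr i (hb i s hs.le) hv).1

theorem smooth_nat (n : ℕ) : ∀ Z : ℕ → ℝ → ℝ, Good Y Z →
    ContDiffOn ℝ n (fun q : ℝ × ℝ => FE Z q.1 q.2) (Dom Y) ∧
    ContDiffOn ℝ n (fun q : ℝ × ℝ => FO Z q.1 q.2) (Dom Y) := by
  induction n with
  | zero =>
    intro Z h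
    rw [Nat.cast_zero, contDiffOn_zero, contDiffOn_zero]
    exact ⟨fun q hq => (hasFDerivAt_FE hY h hq.1 hq.2).continuousAt.continuousWithinAt,
      fun q hq => (hasFDerivAt_FO hY h hq.1 hq.2).continuousAt.continuousWithinAt⟩
  | succ n ih =>
    intro Z h
    have hd1 : DifferentiableOn ℝ (fun q : ℝ × ℝ => FE Z q.1 q.2) (Dom Y) := fun q hq =>
      (hasFDerivAt_FE hY h hq.1 hq.2).differentiableAt.differentiableWithinAt
    have hd2 : DifferentiableOn ℝ (fun q : ℝ × ℝ => FO Z q.1 q.2) (Dom Y) := fun q hq =>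
      (hasFDerivAt_FO hY h hq.1 hq.2).differentiableAt.differentiableWithinAt
    obtain ⟨i1, i2⟩ := ih Z h
    obtain ⟨i3, i4⟩ := ih (sh Z) (h.shift hY)
    push_cast
    rw [contDiffOn_succ_iff_fderiv_of_isOpen (isOpen_Dom Y),
      contDiffOn_succ_iff_fderiv_of_isOpen (isOpen_Dom Y)]
    refine ⟨⟨hd1, by simp, ?_⟩, ⟨hd2, by simp, ?_⟩⟩
    · have h5 : ContDiffOn ℝ n (fun q : ℝ × ℝ =>
          FE (sh Z) q.1 q.2 • ContinuousLinearMap.fst ℝ ℝ ℝ +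
          FO (sh Z) q.1 q.2 • ContinuousLinearMap.snd ℝ ℝ ℝ) (Dom Y) :=
        (i3.smul contDiffOn_const).add (i4.smul contDiffOn_const)
      exact h5.congr fun q hq => (hasFDerivAt_FE hY h hq.1 hq.2).fderiv
    · have h5 : ContDiffOn ℝ n (fun q : ℝ × ℝ =>
          FO (sh Z) q.1 q.2 • ContinuousLinearMap.fst ℝ ℝ ℝ +
          FE Z q.1 q.2 • ContinuousLinearMap.snd ℝ ℝ ℝ) (Dom Y) :=
        (i4.smul contDiffOn_const).add (i1.smul contDiffOn_const)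
      exact h5.congr fun q hq => (hasFDerivAt_FO hY h hq.1 hq.2).fderiv

theorem smooth_FE {Z : ℕ → ℝ → ℝ} (h : Good Y Z) :
    ContDiffOn ℝ ((⊤ : ℕ∞) : WithTop ℕ∞) (fun q : ℝ × ℝ => FE Z q.1 q.2) (Dom Y) :=
  contDiffOn_infty.2 fun n => (smooth_nat hY n Z h).1

theorem smooth_FO {Z : ℕ → ℝ → ℝ} (h : Good Y Z) :
    ContDiffOn ℝ ((⊤ : ℕ∞) : WithTop ℕ∞) (fun q : ℝ × ℝ => FO Z q.1 q.2) (Dom Y) :=
  contDiffOn_infty.2 fun n => (smooth_nat hY n Z h).2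

/-! ### one-dimensional derivatives -/

theorem FE_dt {Z : ℕ → ℝ → ℝ} (h : Good Y Z) {t y : ℝ} (ht : 0 < t) (hy : |y| < Y) :
    HasDerivAt (fun s => FE Z s y) (FE (sh Z) t y) t := by
  have h1 := hasFDerivAt_FE hY h ht hy
  have h2 : HasDerivAt (fun s : ℝ => ((s, y) : ℝ × ℝ)) ((1, 0) : ℝ × ℝ) t :=
    (hasDerivAt_id t).prodMk (hasDerivAt_const t y)
  have h3 := HasFDerivAt.comp_hasDerivAt t h1 h2
  have e : (FE (sh Z) t y • ContinuousLinearMap.fst ℝ ℝ ℝ +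
      FO (sh Z) t y • ContinuousLinearMap.snd ℝ ℝ ℝ) ((1, 0) : ℝ × ℝ) = FE (sh Z) t y := by simp
  rw [e] at h3
  exact h3

theorem FE_dy {Z : ℕ → ℝ → ℝ} (h : Good Y Z) {t y : ℝ} (ht : 0 < t) (hy : |y| < Y) :
    HasDerivAt (fun v => FE Z t v) (FO (sh Z) t y) y := by
  have h1 := hasFDerivAt_FE hY h ht hy
  have h2 : HasDerivAt (fun v : ℝ => ((t, v) : ℝ × ℝ)) ((0, 1) : ℝ × ℝ) y :=
    (hasDerivAt_const y t).prodMk (hasDerivAt_id y)
  have h3 := HasFDerivAt.comp_hasDerivAt y h1 h2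
  have e : (FE (sh Z) t y • ContinuousLinearMap.fst ℝ ℝ ℝ +
      FO (sh Z) t y • ContinuousLinearMap.snd ℝ ℝ ℝ) ((0, 1) : ℝ × ℝ) = FO (sh Z) t y := by simp
  rw [e] at h3
  exact h3

theorem FO_dt {Z : ℕ → ℝ → ℝ} (h : Good Y Z) {t y : ℝ} (ht : 0 < t) (hy : |y| < Y) :
    HasDerivAt (fun s => FO Z s y) (FO (sh Z) t y) t := by
  have h1 := hasFDerivAt_FO hY h ht hy
  have h2 : HasDerivAt (fun s : ℝ => ((s, y) : ℝ × ℝ)) ((1, 0) : ℝ × ℝ) t :=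
    (hasDerivAt_id t).prodMk (hasDerivAt_const t y)
  have h3 := HasFDerivAt.comp_hasDerivAt t h1 h2
  have e : (FO (sh Z) t y • ContinuousLinearMap.fst ℝ ℝ ℝ +
      FE Z t y • ContinuousLinearMap.snd ℝ ℝ ℝ) ((1, 0) : ℝ × ℝ) = FO (sh Z) t y := by simp
  rw [e] at h3
  exact h3

theorem FO_dy {Z : ℕ → ℝ → ℝ} (h : Good Y Z) {t y : ℝ} (ht : 0 < t) (hy : |y| < Y) :
    HasDerivAt (fun v => FO Z t v) (FE Z t y) y := by
  have h1 := hasFDerivAt_FO hY h ht hy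
  have h2 : HasDerivAt (fun v : ℝ => ((t, v) : ℝ × ℝ)) ((0, 1) : ℝ × ℝ) y :=
    (hasDerivAt_const y t).prodMk (hasDerivAt_id y)
  have h3 := HasFDerivAt.comp_hasDerivAt y h1 h2
  have e : (FO (sh Z) t y • ContinuousLinearMap.fst ℝ ℝ ℝ +
      FE Z t y • ContinuousLinearMap.snd ℝ ℝ ℝ) ((0, 1) : ℝ × ℝ) = FE Z t y := by simp
  rw [e] at h3
  exact h3

end

theorem FE_neg (Z : ℕ → ℝ → ℝ) (t y : ℝ) : FE Z t (-y) = FE Z t y := by
  unfold FE
  congr 1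
  funext i
  rw [Even.neg_pow (even_two_mul i)]

theorem FO_zero (Z : ℕ → ℝ → ℝ) (t : ℝ) : FO Z t 0 = 0 := by
  unfold FO
  simp

theorem FE_of_zero {Z : ℕ → ℝ → ℝ} {t : ℝ} (h : ∀ i, Z i t = 0) (y : ℝ) : FE Z t y = 0 := by
  simp [FE, h]

theorem FO_of_zero {Z : ℕ → ℝ → ℝ} {t : ℝ} (h : ∀ i, Z i t = 0) (y : ℝ) : FO Z t y = 0 := by
  simp [FO, h]

end Pool.Agent.Q61.NC
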