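import Pool.Agent.H72.Lib.S3997.NC.Par

/-!
# Controlled scalar profiles
-/

set_option autoImplicit false

open Set Filter Topology MeasureTheory AddCircle
open scoped ENNReal

namespace Pool.Agent.Q61.NC

/-- A controlled scalar profile `V` with its derivatives; `g` is the slope of the pressure. -/
structure Flow (D : Set ℝ) (Y T : ℝ) (f : ℝ → ℝ) (V Vt Vy Vyy : ℝ → ℝ → ℝ) (g : ℝ → ℝ) :
    Prop where
  smooth : ContDiffOn ℝ ((⊤ : ℕ∞) : WithTop ℕ∞) (fun q : ℝ × ℝ => V q.1 q.2) (Dom Y)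
  gsmooth : ContDiffOn ℝ ((⊤ : ℕ∞) : WithTop ℕ∞) g (Ioi 0)
  ycont : ContinuousOn (fun q : ℝ × ℝ => Vy q.1 q.2) (Dom Y)
  dt : ∀ t y, 0 < t → |y| < Y → HasDerivAt (fun s => V s y) (Vt t y) t
  dy : ∀ t y, 0 < t → |y| < Y → HasDerivAt (fun v => V t v) (Vy t y) y
  dyy : ∀ t y, 0 < t → |y| < Y → HasDerivAt (fun v => Vy t v) (Vyy t y) y
  heat : ∀ t y, Vyy t y = Vt t y + g t
  zero : ∀ t y, T ≤ t → V t y = 0
  lim : Tendsto (fun t : ℝ => ∫⁻ y in D, ‖V t y - f y‖ₑ ^ 2) (𝓝[>] 0) (𝓝 0)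
  en : ∫⁻ t in Ioi (0 : ℝ), ∫⁻ y in D, ‖Vy t y‖ₑ ^ 2 < ⊤

section

variable {L : ℝ} [hL : Fact (0 < L)]

theorem lim_of {F f : ℝ → ℝ} {V : ℝ → ℝ → ℝ} {D : Set ℝ} {T : ℝ} (hT : 0 < T)
    (hF : MemLp F 2 (volume.restrict (Ioc (-(L / 2)) (-(L / 2) + L))))
    (hD : D ⊆ Ioc (-(L / 2)) (-(L / 2) + L)) (hf : ∀ᵐ y ∂(volume.restrict D), F y = f y)
    (hV : ∀ t y, 0 < t → t ≤ T / 2 → V t y = (SC L (ct L F t) (y : AddCircle L)).re) :
    Tendsto (fun t : ℝ => ∫⁻ y in D, ‖V t y - f y‖ₑ ^ 2) (𝓝[>] 0) (𝓝 0) := by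
  refine tendsto_of_tendsto_of_tendsto_of_le_of_le' tendsto_const_nhds (tendsto_data hF)
    (Eventually.of_forall fun _ => bot_le) ?_
  have h1 : Ioo (0 : ℝ) (T / 2) ∈ 𝓝[>] (0 : ℝ) := Ioo_mem_nhdsGT (by linarith)
  filter_upwards [h1] with t ht
  calc ∫⁻ y in D, ‖V t y - f y‖ₑ ^ 2
      = ∫⁻ y in D, ‖F y - (SC L (ct L F t) (y : AddCircle L)).re‖ₑ ^ 2 := by
        refine lintegral_congr_ae ?_
        filter_upwards [hf] with y hy
        rw [hV t y ht.1 ht.2.le, hy, enorm_sub_rev]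
    _ ≤ _ := lintegral_mono_set hD

theorem en_of {F : ℝ → ℝ} {Vy : ℝ → ℝ → ℝ} {D : Set ℝ} {a Y T : ℝ} (hT : 0 < T)
    (haY : a < Y) (hF : MemLp F 2 (volume.restrict (Ioc (-(L / 2)) (-(L / 2) + L))))
    (hD : D ⊆ Ioc (-(L / 2)) (-(L / 2) + L)) (hDm : MeasurableSet D) (hDa : D ⊆ Icc (-a) a)
    (hc : ContinuousOn (fun q : ℝ × ℝ => Vy q.1 q.2) (Dom Y))
    (hz : ∀ t y, T ≤ t → Vy t y = 0)
    (hV : ∀ t y, 0 < t → t ≤ T / 2 → Vy t y = (SC L (ctd L F t) (y : AddCircle L)).re) :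
    ∫⁻ t in Ioi (0 : ℝ), ∫⁻ y in D, ‖Vy t y‖ₑ ^ 2 < ⊤ := by
  have hT2 : 0 < T / 2 := by linarith
  have hK : IsCompact (Icc (T / 2) T ×ˢ Icc (-a) a) := isCompact_Icc.prod isCompact_Icc
  have hKD : Icc (T / 2) T ×ˢ Icc (-a) a ⊆ Dom Y := by
    rintro ⟨t, y⟩ ⟨h1, h2⟩
    exact ⟨hT2.trans_le h1.1, (abs_le.2 h2).trans_lt haY⟩
  obtain ⟨C, hC⟩ := hK.exists_bound_of_continuousOn (hc.mono hKD)
  have hvD : volume D < ⊤ := (measure_mono hDa).trans_lt (by simp)
  have hun : Ioi (0 : ℝ) ⊆ Ioc 0 (T / 2) ∪ (Ioc (T / 2) T ∪ Ioi T) := by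
    intro t ht
    have ht' : 0 < t := ht
    rcases le_or_gt t (T / 2) with h | h
    · exact Or.inl ⟨ht', h⟩
    · rcases le_or_gt t T with h' | h'
      · exact Or.inr (Or.inl ⟨h, h'⟩)
      · exact Or.inr (Or.inr h')
  have h1 : ∫⁻ t in Ioc 0 (T / 2), ∫⁻ y in D, ‖Vy t y‖ₑ ^ 2 < ⊤ := by
    refine lt_of_le_of_lt ?_ (energy hF)
    calc ∫⁻ t in Ioc 0 (T / 2), ∫⁻ y in D, ‖Vy t y‖ₑ ^ 2
        ≤ ∫⁻ t in Ioc 0 (T / 2), ∫⁻ y in Ioc (-(L / 2)) (-(L / 2) + L),
          ‖(SC L (ctd L F t) (y : AddCircle L)).re‖ₑ ^ 2 := by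
          refine setLIntegral_mono' measurableSet_Ioc fun t ht => ?_
          calc ∫⁻ y in D, ‖Vy t y‖ₑ ^ 2
              = ∫⁻ y in D, ‖(SC L (ctd L F t) (y : AddCircle L)).re‖ₑ ^ 2 := by
                refine lintegral_congr fun y => ?_
                rw [hV t y ht.1 ht.2]
            _ ≤ _ := lintegral_mono_set hD
      _ ≤ _ := lintegral_mono_set fun t ht => ht.1
  have h2 : ∫⁻ t in Ioc (T / 2) T, ∫⁻ y in D, ‖Vy t y‖ₑ ^ 2 < ⊤ := by
    have h3 : ∫⁻ t in Ioc (T / 2) T, ∫⁻ y in D, ‖Vy t y‖ₑ ^ 2 ≤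
        ∫⁻ _t in Ioc (T / 2) T, ENNReal.ofReal C ^ 2 * volume D := by
      refine setLIntegral_mono' measurableSet_Ioc fun t ht => ?_
      calc ∫⁻ y in D, ‖Vy t y‖ₑ ^ 2
          ≤ ∫⁻ _y in D, ENNReal.ofReal C ^ 2 := by
            refine setLIntegral_mono' hDm fun y hy => ?_
            have h4 := hC (t, y) ⟨⟨ht.1.le, ht.2⟩, hDa hy⟩
            have h5 : ‖Vy t y‖ₑ ≤ ENNReal.ofReal C := by
              rw [← ofReal_norm]
              exact ENNReal.ofReal_le_ofReal h4
            gcongr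
        _ = _ := by rw [setLIntegral_const]
    refine h3.trans_lt ?_
    rw [setLIntegral_const]
    exact ENNReal.mul_lt_top (ENNReal.mul_lt_top (ENNReal.pow_lt_top ENNReal.ofReal_lt_top) hvD)
      (by simp)
  have h3 : ∫⁻ t in Ioi T, ∫⁻ y in D, ‖Vy t y‖ₑ ^ 2 = 0 := by
    have : ∫⁻ t in Ioi T, ∫⁻ y in D, ‖Vy t y‖ₑ ^ 2 = ∫⁻ _t in Ioi T, 0 := by
      refine setLIntegral_congr_fun measurableSet_Ioi fun t ht => ?_
      have ht' : T < t := ht
      simp [hz t _ ht'.le]
    rw [this]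
    simp
  calc ∫⁻ t in Ioi (0 : ℝ), ∫⁻ y in D, ‖Vy t y‖ₑ ^ 2
      ≤ ∫⁻ t in Ioc 0 (T / 2) ∪ (Ioc (T / 2) T ∪ Ioi T), ∫⁻ y in D, ‖Vy t y‖ₑ ^ 2 :=
        lintegral_mono_set hun
    _ ≤ (∫⁻ t in Ioc 0 (T / 2), ∫⁻ y in D, ‖Vy t y‖ₑ ^ 2) +
        (∫⁻ t in Ioc (T / 2) T ∪ Ioi T, ∫⁻ y in D, ‖Vy t y‖ₑ ^ 2) := lintegral_union_le _ _ _
    _ ≤ (∫⁻ t in Ioc 0 (T / 2), ∫⁻ y in D, ‖Vy t y‖ₑ ^ 2) +
        ((∫⁻ t in Ioc (T / 2) T, ∫⁻ y in D, ‖Vy t y‖ₑ ^ 2) +
          (∫⁻ t in Ioi T, ∫⁻ y in D, ‖Vy t y‖ₑ ^ 2)) :=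
        add_le_add le_rfl (lintegral_union_le _ _ _)
    _ < ⊤ := by
        rw [h3, add_zero]
        exact ENNReal.add_lt_top.2 ⟨h1, h2⟩

omit hL in
theorem FE_congr {Z Z' : ℕ → ℝ → ℝ} {t : ℝ} (h : ∀ i, Z i t = Z' i t) (y : ℝ) :
    FE Z t y = FE Z' t y := by
  simp [FE, h]

omit hL in
theorem FO_congr {Z Z' : ℕ → ℝ → ℝ} {t : ℝ} (h : ∀ i, Z i t = Z' i t) (y : ℝ) :
    FO Z t y = FO Z' t y := by
  simp [FO, h]

omit hL in
theorem sh_fr (α : ℤ → ℝ) : sh (fr L α) = fr L fun k => (-(om L k) * α k) * om L k := by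
  funext i t
  unfold sh fr
  congr 1
  funext k
  rw [lam, pow_succ]
  ring

omit hL in
theorem abs_om_le (k : ℤ) : |om L k| ≤ 1 + lam L k := by
  rw [lam, ← sq_abs]
  nlinarith [sq_nonneg (|om L k| - 1), abs_nonneg (om L k)]

theorem ct_re (F : ℝ → ℝ) (t : ℝ) (k : ℤ) :
    (ct L F t k).re = (cf L F k).re * Real.exp (-(lam L k * t)) := by
  rw [ct, Complex.mul_re, Complex.ofReal_re, Complex.ofReal_im, mul_zero, sub_zero]

theorem ct_im (F : ℝ → ℝ) (t : ℝ) (k : ℤ) :
    (ct L F t k).im = (cf L F k).im * Real.exp (-(lam L k * t)) := by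
  rw [ct, Complex.mul_im, Complex.ofReal_re, Complex.ofReal_im, mul_zero, zero_add]

theorem ctd_re (F : ℝ → ℝ) (t : ℝ) (k : ℤ) :
    (ctd L F t k).re = -(om L k * (ct L F t k).im) := by
  rw [ctd]
  simp [Complex.mul_re]

theorem ctd_im (F : ℝ → ℝ) (t : ℝ) (k : ℤ) :
    (ctd L F t k).im = om L k * (ct L F t k).re := by
  rw [ctd]
  simp [Complex.mul_im]

/-- The even case: the series of the free flow. -/
theorem even_series {F : ℝ → ℝ} (hF : MemLp F 2 (volume.restrict (Ioc (-(L / 2)) (-(L / 2) + L))))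
    (he : ∀ y, F (-y) = F y) {t : ℝ} (ht : 0 < t) (y : ℝ) :
    FE (fr L fun k => (cf L F k).re) t y = (SC L (ct L F t) (y : AddCircle L)).re ∧
    FO (sh (fr L fun k => (cf L F k).re)) t y = (SC L (ctd L F t) (y : AddCircle L)).re := by
  obtain ⟨M, hM, hb⟩ := cf_bound hF
  have hb' : ∀ k, |(cf L F k).re| ≤ M := fun k => (Complex.abs_re_le_norm _).trans (hb k)
  constructor
  · rw [FE_fr hL.out hM (fun k => (hb' k).trans (by nlinarith [lam_nonneg L k])) ht]
    rw [← (SC_re (ct_summable hF ht) y).tsum_eq]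
    congr 1
    funext k
    rw [ct_re, ct_im, cf_even he k]
    ring
  · rw [sh_fr, FO_fr hL.out hM _ ht]
    · rw [← (SC_re (ctd_summable hF ht) y).tsum_eq]
      congr 1
      funext k
      rw [ctd_re, ctd_im, ct_re, ct_im, cf_even he k]
      ring
    · intro k
      have h1 : |-om L k * (cf L F k).re * om L k| = lam L k * |(cf L F k).re| := by
        rw [abs_mul, abs_mul, abs_neg, lam, ← sq_abs]
        ring
      rw [h1]
      have := hb' k
      have h0 := lam_nonneg L k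
      nlinarith [abs_nonneg (cf L F k).re]

/-- The odd case: the series of the free flow. -/
theorem odd_series {F : ℝ → ℝ} (hF : MemLp F 2 (volume.restrict (Ioc (-(L / 2)) (-(L / 2) + L))))
    (he : ∀ y, F (-y) = -F y) {t : ℝ} (ht : 0 < t) (y : ℝ) :
    FO (fr L fun k => (-(cf L F k).im) * om L k) t y =
      (SC L (ct L F t) (y : AddCircle L)).re ∧
    FE (fr L fun k => (-(cf L F k).im) * om L k) t y =
      (SC L (ctd L F t) (y : AddCircle L)).re := by
  obtain ⟨M, hM, hb⟩ := cf_bound hF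
  have hb' : ∀ k, |-(cf L F k).im * om L k| ≤ M * (1 + lam L k) := by
    intro k
    rw [abs_mul, abs_neg]
    have h1 := (Complex.abs_im_le_norm _).trans (hb k)
    have h2 := abs_om_le (L := L) k
    have h3 := abs_nonneg (om L k)
    gcongr
  constructor
  · rw [FO_fr hL.out hM hb' ht]
    rw [← (SC_re (ct_summable hF ht) y).tsum_eq]
    congr 1
    funext k
    rw [ct_re, ct_im, cf_odd he k]
    ring
  · rw [FE_fr hL.out hM hb' ht]
    rw [← (SC_re (ctd_summable hF ht) y).tsum_eq]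
    congr 1
    funext k
    rw [ctd_re, ctd_im, ct_re, ct_im, cf_odd he k]
    ring

end

/-! ### one wall -/

theorem flowB {a T : ℝ} (ha : 0 < a) (hT : 0 < T) {f : ℝ → ℝ}
    (hf : MemLp f 2 (volume.restrict (Icc 0 a))) :
    ∃ (V Vt Vy Vyy : ℝ → ℝ → ℝ) (g : ℝ → ℝ), Flow (Icc 0 a) (2 * a) T f V Vt Vy Vyy g ∧
      (∀ t, V t 0 = 0) ∧ ∀ t, g t = 0 := by
  have hL : Fact (0 < 4 * a) := ⟨by positivity⟩
  have hY : 0 < 2 * a := by positivity
  set G : ℝ → ℝ := indicator (Ioc 0 a) f with hG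
  have hGm : MemLp G 2 volume := by
    rw [hG, memLp_indicator_iff_restrict measurableSet_Ioc]
    exact hf.mono_measure (Measure.restrict_mono Ioc_subset_Icc_self le_rfl)
  set F : ℝ → ℝ := fun y => G y - G (-y) with hFd
  have hF0 : MemLp F 2 volume := by
    refine hGm.sub ?_
    exact hGm.comp_measurePreserving (Measure.measurePreserving_neg volume)
  have hF : MemLp F 2 (volume.restrict (Ioc (-(4 * a / 2)) (-(4 * a / 2) + 4 * a))) :=
    hF0.mono_measure Measure.restrict_le_self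
  have hodd : ∀ y, F (-y) = -F y := by
    intro y
    rw [hFd]
    simp only [neg_neg]
    ring
  obtain ⟨M, hM, hb⟩ := cf_bound hF
  have hb' : ∀ k, |-(cf (4 * a) F k).im * om (4 * a) k| ≤ M * (1 + lam (4 * a) k) := by
    intro k
    rw [abs_mul, abs_neg]
    have h1 := (Complex.abs_im_le_norm _).trans (hb k)
    have h2 := abs_om_le (L := 4 * a) k
    have h3 := abs_nonneg (om (4 * a) k)
    gcongr
  set β : ℤ → ℝ := fun k => (-(cf (4 * a) F k).im) * om (4 * a) k with hβ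
  set Z := cj (4 * a) T (2 * a) β with hZ
  have hg : Good (2 * a) Z := cj_good hL.out hT hY hM hb'
  have hleft : ∀ i t, 0 < t → t ≤ T / 2 → Z i t = fr (4 * a) β i t := fun i t h0 h1 =>
    cj_left hY β i h0 h1
  have hright : ∀ i t, T ≤ t → Z i t = 0 := fun i t h => cj_right hT hY β i h
  refine ⟨FO Z, FO (sh Z), FE Z, FO (sh Z), fun _ => 0, ?_, fun t => FO_zero Z t, fun _ => rfl⟩
  have hDs : Icc 0 a ⊆ Ioc (-(4 * a / 2)) (-(4 * a / 2) + 4 * a) := by
    intro y hy
    constructor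
    · linarith [hy.1]
    · linarith [hy.2]
  exact
    { smooth := smooth_FO hY hg
      gsmooth := contDiffOn_const
      ycont := (smooth_FE hY hg).continuousOn
      dt := fun t y ht hy => FO_dt hY hg ht hy
      dy := fun t y ht hy => FO_dy hY hg ht hy
      dyy := fun t y ht hy => FE_dy hY hg ht hy
      heat := fun t y => by simp
      zero := fun t y ht => FO_of_zero (fun i => hright i t ht) y
      lim := by
        refine lim_of (L := 4 * a) (F := F) hT hF hDs ?_ ?_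
        · have h0 : ∀ᵐ y ∂(volume.restrict (Icc 0 a)), y ≠ 0 := by
            refine ae_restrict_of_ae ?_
            simp [ae_iff, measure_singleton]
          filter_upwards [h0, ae_restrict_mem measurableSet_Icc] with y hy0 hy
          have hy' : 0 < y := lt_of_le_of_ne hy.1 (Ne.symm hy0)
          rw [hFd]
          simp only [hG]
          rw [indicator_of_mem (show y ∈ Ioc 0 a from ⟨hy', hy.2⟩),
            indicator_of_notMem (show -y ∉ Ioc 0 a from fun h => by linarith [h.1]), sub_zero]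
        · intro t y h0 h1
          rw [FO_congr (fun i => hleft i t h0 h1)]
          exact (odd_series hF hodd h0 y).1
      en := by
        refine en_of (L := 4 * a) (F := F) (a := a) (Y := 2 * a) hT (by linarith) hF hDs
          measurableSet_Icc (Icc_subset_Icc_left (by linarith)) (smooth_FE hY hg).continuousOn
          (fun t y ht => FE_of_zero (fun i => hright i t ht) y) ?_
        intro t y h0 h1
        rw [FE_congr (fun i => hleft i t h0 h1)]
        exact (odd_series hF hodd h0 y).2 }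

/-! ### two walls -/

theorem flowA {a T : ℝ} (ha : 0 < a) (hT : 0 < T) {f : ℝ → ℝ}
    (hf : MemLp f 2 (volume.restrict (Icc (-a) a))) (he : ∀ y ∈ Icc (-a) a, f (-y) = f y) :
    ∃ (V Vt Vy Vyy : ℝ → ℝ → ℝ) (g : ℝ → ℝ), Flow (Icc (-a) a) (2 * a) T f V Vt Vy Vyy g ∧
      (∀ t, V t a = 0) ∧ (∀ t, V t (-a) = 0) ∧ ∀ t, T ≤ t → g t = 0 := by
  have hL : Fact (0 < 4 * a) := ⟨by positivity⟩
  have hY : 0 < 2 * a := by positivity
  set G : ℝ → ℝ := indicator (Ioo (-a) a) f with hG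
  have hGe : ∀ y, G (-y) = G y := by
    intro y
    by_cases hy : y ∈ Ioo (-a) a
    · have hy' : -y ∈ Ioo (-a) a := ⟨by linarith [hy.2], by linarith [hy.1]⟩
      rw [hG, indicator_of_mem hy, indicator_of_mem hy', he y ⟨hy.1.le, hy.2.le⟩]
    · have hy' : -y ∉ Ioo (-a) a := fun h => hy ⟨by linarith [h.2], by linarith [h.1]⟩
      rw [hG, indicator_of_notMem hy, indicator_of_notMem hy']
  have hG0 : ∀ y, a ≤ |y| → G y = 0 := by
    intro y hy
    rw [hG]
    refine indicator_of_notMem (fun h => ?_) _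
    have : |y| < a := abs_lt.2 ⟨h.1, h.2⟩
    linarith
  have hGm : MemLp G 2 volume := by
    rw [hG, memLp_indicator_iff_restrict measurableSet_Ioo]
    exact hf.mono_measure (Measure.restrict_mono Ioo_subset_Icc_self le_rfl)
  set F : ℝ → ℝ := fun y => G y - G (y - 2 * a) - G (y + 2 * a) with hFd
  have hF0 : MemLp F 2 volume := by
    refine (hGm.sub ?_).sub ?_
    · exact hGm.comp_measurePreserving (measurePreserving_sub_right volume (2 * a))
    · exact hGm.comp_measurePreserving (measurePreserving_add_right volume (2 * a))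
  have hF : MemLp F 2 (volume.restrict (Ioc (-(4 * a / 2)) (-(4 * a / 2) + 4 * a))) :=
    hF0.mono_measure Measure.restrict_le_self
  have heven : ∀ y, F (-y) = F y := by
    intro y
    have e1 : G (-y - 2 * a) = G (y + 2 * a) := by rw [← hGe]; congr 1; ring
    have e2 : G (-y + 2 * a) = G (y - 2 * a) := by rw [← hGe]; congr 1; ring
    simp only [hFd]
    rw [hGe, e1, e2]
    ring
  have hanti : ∀ y ∈ Icc (-(4 * a / 2)) 0, F (y + 4 * a / 2) = -F y := by
    intro y hy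
    have e0 : y + 4 * a / 2 = y + 2 * a := by ring
    have e1 : G (y + 2 * a - 2 * a) = G y := by congr 1; ring
    have e2 : G (y + 2 * a + 2 * a) = 0 := by
      apply hG0
      rw [abs_of_nonneg (by linarith [hy.1])]
      linarith [hy.1]
    have e3 : G (y - 2 * a) = 0 := by
      apply hG0
      rw [abs_of_nonpos (by linarith [hy.2])]
      linarith [hy.2]
    simp only [hFd]
    rw [e0, e1, e2, e3]
    ring
  obtain ⟨M, hM, hb⟩ := cf_bound hF
  set α : ℤ → ℝ := fun k => (cf (4 * a) F k).re with hα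
  have hb' : ∀ k, |α k| ≤ M * (1 + lam (4 * a) k) := by
    intro k
    have h1 : |α k| ≤ M := (Complex.abs_re_le_norm _).trans (hb k)
    nlinarith [lam_nonneg (4 * a) k]
  set Z := cj (4 * a) T (2 * a) α with hZ
  have hg : Good (2 * a) Z := cj_good hL.out hT hY hM hb'
  have hleft : ∀ i t, 0 < t → t ≤ T / 2 → Z i t = fr (4 * a) α i t := fun i t h0 h1 =>
    cj_left hY α i h0 h1
  have hright : ∀ i t, T ≤ t → Z i t = 0 := fun i t h => cj_right hT hY α i h
  have hwall : ∀ t, 0 < t → t ≤ T / 2 → FE Z t a = 0 := by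
    intro t h0 h1
    rw [FE_congr (fun i => hleft i t h0 h1), FE_fr hL.out hM hb' h0]
    have : ∀ k : ℤ, α k * Real.exp (-(lam (4 * a) k * t)) * Real.cos (om (4 * a) k * a) = 0 := by
      intro k
      rcases Int.even_or_odd k with hk | hk
      · have h2 : α k = 0 := by
          rw [hα]
          simp only
          rw [cf_anti hF hanti hk, Complex.zero_re]
        rw [h2]
        ring
      · have h2 : Real.cos (om (4 * a) k * a) = 0 := by
          rw [Real.cos_eq_zero_iff]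
          obtain ⟨m, hm⟩ := hk
          refine ⟨m, ?_⟩
          rw [om, hm]
          push_cast
          field_simp
          ring
        rw [h2, mul_zero]
    simp [this]
  have haY : |a| < 2 * a := by rw [abs_of_pos ha]; linarith
  have hmap : MapsTo (fun q : ℝ × ℝ => (q.1, a)) (Dom (2 * a)) (Dom (2 * a)) := fun q hq =>
    ⟨hq.1, haY⟩
  have hDs : Icc (-a) a ⊆ Ioc (-(4 * a / 2)) (-(4 * a / 2) + 4 * a) := by
    intro y hy
    constructor
    · linarith [hy.1]
    · linarith [hy.2]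
  refine ⟨fun t y => FE Z t y - FE Z t a, fun t y => FE (sh Z) t y - FE (sh Z) t a, FO (sh Z),
    FE (sh Z), fun t => FE (sh Z) t a, ?_, fun t => sub_self _, fun t => ?_, fun t ht => ?_⟩
  · exact
    { smooth := by
        refine (smooth_FE hY hg).sub ?_
        exact (smooth_FE hY hg).comp (contDiff_fst.prodMk contDiff_const).contDiffOn hmap
      gsmooth := by
        have h1 : ContDiff ℝ ((⊤ : ℕ∞) : WithTop ℕ∞) fun t : ℝ => ((t, a) : ℝ × ℝ) :=
          contDiff_id.prodMk contDiff_const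
        exact (smooth_FE hY (hg.shift hY)).comp h1.contDiffOn fun t ht => ⟨ht, haY⟩
      ycont := (smooth_FO hY (hg.shift hY)).continuousOn
      dt := fun t y ht hy => (FE_dt hY hg ht hy).sub (FE_dt hY hg ht haY)
      dy := fun t y ht hy => (FE_dy hY hg ht hy).sub_const _
      dyy := fun t y ht hy => FO_dy hY (hg.shift hY) ht hy
      heat := fun t y => by ring
      zero := fun t y ht => by
        rw [FE_of_zero (fun i => hright i t ht) y, FE_of_zero (fun i => hright i t ht) a, sub_zero]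
      lim := by
        refine lim_of (L := 4 * a) (F := F) hT hF hDs ?_ ?_
        · have h0 : ∀ᵐ y ∂(volume.restrict (Icc (-a) a)), y ≠ a ∧ y ≠ -a := by
            refine ae_restrict_of_ae ?_
            have h1 : ∀ᵐ y : ℝ, y ≠ a := by simp [ae_iff, measure_singleton]
            have h2 : ∀ᵐ y : ℝ, y ≠ -a := by simp [ae_iff, measure_singleton]
            exact h1.and h2
          filter_upwards [h0, ae_restrict_mem measurableSet_Icc] with y hy0 hy
          have hy1 : -a < y := lt_of_le_of_ne hy.1 (Ne.symm hy0.2)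
          have hy2 : y < a := lt_of_le_of_ne hy.2 hy0.1
          have e2 : G (y + 2 * a) = 0 := by
            apply hG0
            rw [abs_of_nonneg (by linarith)]
            linarith
          have e3 : G (y - 2 * a) = 0 := by
            apply hG0
            rw [abs_of_nonpos (by linarith)]
            linarith
          simp only [hFd]
          rw [e2, e3, hG, indicator_of_mem (show y ∈ Ioo (-a) a from ⟨hy1, hy2⟩)]
          ring
        · intro t y h0 h1
          rw [hwall t h0 h1, sub_zero, FE_congr (fun i => hleft i t h0 h1)]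
          exact (even_series hF heven h0 y).1
      en := by
        refine en_of (L := 4 * a) (F := F) (a := a) (Y := 2 * a) hT (by linarith) hF hDs
          measurableSet_Icc Subset.rfl (smooth_FO hY (hg.shift hY)).continuousOn
          (fun t y ht => FO_of_zero (fun i => hright (i + 1) t ht) y) ?_
        intro t y h0 h1
        have h2 : FO (sh Z) t y = FO (sh (fr (4 * a) α)) t y :=
          FO_congr (fun i => hleft (i + 1) t h0 h1) y
        rw [h2]
        exact (even_series hF heven h0 y).2 }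
  · simp only
    rw [FE_neg, sub_self]
  · exact FE_of_zero (fun i => hright (i + 1) t ht) a

end Pool.Agent.Q61.NC
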